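import Pool.Agent.MP_3ee8cb_gt.DFM.Cov0
import Pool.Agent.MP_3ee8cb_gt.DN.Defs

/-! A global Lipschitz chart from local two point bounds. -/

namespace Pool.Agent.MP_3ee8cb_gt.CYP

open DN Set Filter Topology
open scoped NNReal

section

variable {E W : Type} [NormedAddCommGroup E] [NormedSpace ℝ E] [NormedAddCommGroup W]
  [NormedSpace ℝ W] {f : E → W} {L : ℝ}

omit [NormedSpace ℝ W] in
theorem seg (loc : ∀ x, x ≠ 0 → ∀ᶠ p : E × E in 𝓝 (x, x), ‖f p.1 - f p.2‖ ≤ L * ‖p.1 - p.2‖)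
    {x y : E} (h : ∀ s ∈ Icc (0 : ℝ) 1, x + s • (y - x) ≠ 0) : ‖f y - f x‖ ≤ L * ‖y - x‖ := by
  have k : ∀ s ∈ Icc (0 : ℝ) 1, ∀ᶠ z in 𝓝 s, ‖f (x + z • (y - x)) - f (x + s • (y - x))‖ ≤
      L * ‖y - x‖ * |z - s| := by
    intro s hs
    have c : Tendsto (fun z : ℝ => (x + z • (y - x), x + s • (y - x))) (𝓝 s)
        (𝓝 (x + s • (y - x), x + s • (y - x))) :=
      Continuous.tendsto' (by fun_prop) _ _ rfl
    filter_upwards [c.eventually (loc _ (h s hs))] with z hz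
    have e : x + z • (y - x) - (x + s • (y - x)) = (z - s) • (y - x) := by module
    rw [e, norm_smul, Real.norm_eq_abs] at hz
    linarith
  have cf : ContinuousOn (fun s : ℝ => ‖f (x + s • (y - x)) - f x‖) (Icc 0 1) := by
    intro s hs
    refine (ContinuousAt.norm (ContinuousAt.sub ?_ continuousAt_const)).continuousWithinAt
    rw [ContinuousAt, tendsto_iff_norm_sub_tendsto_zero]
    refine squeeze_zero' (Eventually.of_forall fun _ => norm_nonneg _) (k s hs) ?_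
    exact Continuous.tendsto' (by fun_prop) _ _ (by simp)
  have := image_le_of_liminf_slope_right_le_deriv_boundary cf (B := fun s => L * ‖y - x‖ * s)
    (B' := fun _ => L * ‖y - x‖) (by simp) (by fun_prop)
    (fun s _ => by simpa using ((hasDerivAt_id s).const_mul (L * ‖y - x‖)).hasDerivWithinAt)
    (fun s hs r hr => by
      refine Eventually.frequently ?_
      filter_upwards [nhdsWithin_le_nhds (k s (Ico_subset_Icc_self hs)), self_mem_nhdsWithin]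
        with z hz hz'
      have p : 0 < z - s := sub_pos.2 hz'
      rw [slope_def_field, div_lt_iff₀ p]
      rw [abs_of_pos p] at hz
      have := norm_sub_norm_le (f (x + z • (y - x)) - f x) (f (x + s • (y - x)) - f x)
      rw [sub_sub_sub_cancel_right] at this
      nlinarith) (right_mem_Icc.2 zero_le_one)
  simpa using this

/-- A homogeneous map with a local two point bound off the origin is Lipschitz. -/
theorem glob (hom : ∀ (r : ℝ) x, 0 ≤ r → f (r • x) = r • f x)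
    (loc : ∀ x, x ≠ 0 → ∀ᶠ p : E × E in 𝓝 (x, x), ‖f p.1 - f p.2‖ ≤ L * ‖p.1 - p.2‖)
    (x y : E) : ‖f y - f x‖ ≤ L * ‖y - x‖ := by
  have b : ∀ y, ‖f y‖ ≤ L * ‖y‖ := fun y => by
    by_cases hy : y = 0
    · have := hom 0 y le_rfl
      simp only [zero_smul] at this
      simp [hy, this]
    have := seg loc (x := y) (y := (2 : ℝ) • y) fun s hs e => by
      have e1 : (1 + s) • y = 0 := by rw [← e]; module
      exact hy ((smul_eq_zero.1 e1).resolve_left (by linarith [hs.1]))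
    rw [hom 2 y zero_le_two] at this
    have e1 : (2 : ℝ) • f y - f y = f y := by module
    have e2 : (2 : ℝ) • y - y = y := by module
    rwa [e1, e2] at this
  by_cases h : ∀ s ∈ Icc (0 : ℝ) 1, x + s • (y - x) ≠ 0
  · exact seg loc h
  push Not at h
  obtain ⟨s, hs, e⟩ := h
  have e1 : x = (-s) • (y - x) := by rw [← sub_eq_zero, ← e]; module
  have e2 : y = (1 - s) • (y - x) := by rw [← sub_eq_zero, ← e]; module
  have n1 := congrArg norm e1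
  have n2 := congrArg norm e2
  rw [norm_smul, norm_neg, Real.norm_of_nonneg hs.1] at n1
  rw [norm_smul, Real.norm_of_nonneg (sub_nonneg.2 hs.2)] at n2
  have := norm_sub_le (f y) (f x)
  have e3 : ‖y - x‖ = ‖y‖ + ‖x‖ := by linarith
  rw [e3, mul_add]
  linarith [b x, b y]

end

variable [Dim]

/-- A continuous cone with local two point bounds. -/
structure Loc (K D : ℝ) (s l : ℝ≥0) (t : V → ℝ) (ξ F : V → V) : Prop where
  cx : ContinuousOn ξ {a | a ≠ 0}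
  cF : ContinuousOn F {a | a ≠ 0}
  ht : ∀ (r : ℝ) a, r ≠ 0 → a ≠ 0 → t (r • a) = r * t a
  hx : ∀ (r : ℝ) a, r ≠ 0 → a ≠ 0 → ξ (r • a) = r • ξ a
  hF : ∀ (r : ℝ) a, r ≠ 0 → a ≠ 0 → F (r • a) = F a
  bd : ∀ a, ‖a‖ = 1 → ‖F a‖ ≤ D ∧ ‖ξ a‖ ≤ K
  two : ∀ a, ‖a‖ = 1 → ∀ᶠ p : V × V in 𝓝 (a, a), |t p.1 - t p.2| ≤ s * ‖ξ p.1 - ξ p.2‖ ∧
    ‖F p.1 - F p.2‖ ≤ l * ‖ξ p.1 - ξ p.2‖ ∧ (ξ p.1 = ξ p.2 → p.1 = p.2)

/-- The global chart. -/
structure Chart (K D : ℝ) (s l : ℝ≥0) (t τ : V → ℝ) (ξ X F G : V → V) : Prop where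
  cX : Continuous X
  hX : ∀ (r : ℝ) u, X (r • u) = r • X u
  rX : ∀ u, u ≠ 0 → X u ≠ 0 ∧ ξ (X u) = u
  lX : ∀ v, v ≠ 0 → ξ v ≠ 0 ∧ X (ξ v) = v
  eτ : ∀ u, u ≠ 0 → τ u = t (X u)
  eG : ∀ u, u ≠ 0 → G u = F (X u)
  hτ : ∀ (r : ℝ) u, τ (r • u) = r * τ u
  hG : ∀ (r : ℝ) u, r ≠ 0 → G (r • u) = G u
  lτ : LipschitzWith s τ
  mG : Measurable G
  bG : ∀ u, ‖G u‖ ≤ D
  lG : LipschitzWith (2 * K * l + D).toNNReal fun x => ‖x‖ • G x

variable {K D : ℝ} {s l : ℝ≥0} {t : V → ℝ} {ξ F : V → V}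

theorem Loc.all (h : Loc K D s l t ξ F) {a : V} (ha : a ≠ 0) :
    ‖F a‖ ≤ D ∧ ‖ξ a‖ ≤ K * ‖a‖ ∧ ∀ᶠ p : V × V in 𝓝 (a, a),
      |t p.1 - t p.2| ≤ s * ‖ξ p.1 - ξ p.2‖ ∧ ‖a‖ * ‖F p.1 - F p.2‖ ≤ l * ‖ξ p.1 - ξ p.2‖ ∧
        (ξ p.1 = ξ p.2 → p.1 = p.2) ∧ ‖p.1‖ ≤ 2 * ‖a‖ := by
  have n := norm_pos_iff.2 ha
  have i := inv_pos.2 n
  have u : ‖‖a‖⁻¹ • a‖ = 1 := norm_smul_inv_norm ha
  have b := h.bd _ u
  rw [h.hF _ _ i.ne' ha, h.hx _ _ i.ne' ha, norm_smul, norm_inv, norm_norm,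
    inv_mul_le_iff₀ n] at b
  refine ⟨b.1, by linarith [b.2], ?_⟩
  have c : Tendsto (fun p : V × V => (‖a‖⁻¹ • p.1, ‖a‖⁻¹ • p.2)) (𝓝 (a, a))
      (𝓝 (‖a‖⁻¹ • a, ‖a‖⁻¹ • a)) := Continuous.tendsto' (by fun_prop) _ _ rfl
  have o1 : ∀ᶠ p : V × V in 𝓝 (a, a), p.1 ≠ 0 := continuous_fst.continuousAt.eventually_ne ha
  have o2 : ∀ᶠ p : V × V in 𝓝 (a, a), p.2 ≠ 0 := continuous_snd.continuousAt.eventually_ne ha
  have o3 : ∀ᶠ p : V × V in 𝓝 (a, a), ‖p.1‖ < 2 * ‖a‖ :=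
    continuous_fst.norm.continuousAt.eventually_lt continuousAt_const (by simp only; linarith)
  filter_upwards [c.eventually (h.two _ u), o1, o2, o3] with p hp h1 h2 h3
  simp only [h.ht _ _ i.ne' h1, h.ht _ _ i.ne' h2, h.hx _ _ i.ne' h1, h.hx _ _ i.ne' h2,
    h.hF _ _ i.ne' h1, h.hF _ _ i.ne' h2, ← mul_sub, ← smul_sub, norm_smul, abs_mul, norm_inv,
    norm_norm, abs_of_pos i] at hp
  obtain ⟨k1, k2, k3⟩ := hp
  refine ⟨le_of_mul_le_mul_left (by linarith) i, ?_,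
    fun e => smul_right_injective V i.ne' (k3 (by rw [e])), h3.le⟩
  calc ‖a‖ * ‖F p.1 - F p.2‖ ≤ ‖a‖ * (l * (‖a‖⁻¹ * ‖ξ p.1 - ξ p.2‖)) := by gcongr
    _ = _ := by field_simp

theorem Loc.chart (h : Loc K D s l t ξ F) : ∃ τ X G, Chart K D s l t τ ξ X F G := by
  classical
  have hc : DFM.Hc ξ := ⟨h.cx, h.hx, fun a ha => by
    have := (h.all ha).2.2.mono fun p hp => hp.2.2.1
    rw [nhds_prod_eq] at this
    obtain ⟨U, hU, k⟩ := (eventually_prod_self_iff (r := fun x y => ξ x = ξ y → x = y)).1 this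
    exact ⟨U, hU, fun x hx y hy => k x hx y hy⟩⟩
  obtain ⟨X, cX, X0, hX, lX, rX⟩ := hc.inv (by simp [dm])
  set τ : V → ℝ := fun u => if u = 0 then 0 else t (X u) with hτ
  set G : V → V := fun u => if u = 0 then 0 else F (X u) with hG
  have eτ : ∀ u, u ≠ 0 → τ u = t (X u) := fun u hu => if_neg hu
  have eG : ∀ u, u ≠ 0 → G u = F (X u) := fun u hu => if_neg hu
  have τ0 : τ 0 = 0 := if_pos rfl
  have G0 : G 0 = 0 := if_pos rfl
  have e0 : ‖(EuclideanSpace.single (0 : Fin dm) 1 : V)‖ = 1 := by simp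
  have D0 : 0 ≤ D := (norm_nonneg _).trans (h.bd _ e0).1
  have K0 : 0 ≤ K := (norm_nonneg _).trans (h.bd _ e0).2
  have mτ : ∀ (r : ℝ) u, τ (r • u) = r * τ u := fun r u => by
    by_cases hr : r = 0
    · simp [hr, τ0]
    by_cases hu : u = 0
    · simp [hu, τ0]
    rw [eτ _ (smul_ne_zero hr hu), eτ _ hu, hX, h.ht _ _ hr (rX u hu).1]
  have mG : ∀ (r : ℝ) u, r ≠ 0 → G (r • u) = G u := fun r u hr => by
    by_cases hu : u = 0
    · simp [hu]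
    rw [eG _ (smul_ne_zero hr hu), eG _ hu, hX, h.hF _ _ hr (rX u hu).1]
  have bG : ∀ u, ‖G u‖ ≤ D := fun u => by
    by_cases hu : u = 0
    · simpa [hu, G0] using D0
    rw [eG u hu]
    exact (h.all (rX u hu).1).1
  have loc : ∀ u, u ≠ 0 → ∀ᶠ q : V × V in 𝓝 (u, u), ‖τ q.1 - τ q.2‖ ≤ s * ‖q.1 - q.2‖ ∧
      ‖‖q.1‖ • G q.1 - ‖q.2‖ • G q.2‖ ≤ (2 * K * l + D) * ‖q.1 - q.2‖ := fun u hu => by
    have c : Tendsto (fun q : V × V => (X q.1, X q.2)) (𝓝 (u, u)) (𝓝 (X u, X u)) :=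
      Continuous.tendsto' (by fun_prop) _ _ rfl
    have o1 : ∀ᶠ p : V × V in 𝓝 (u, u), p.1 ≠ 0 := continuous_fst.continuousAt.eventually_ne hu
    have o2 : ∀ᶠ p : V × V in 𝓝 (u, u), p.2 ≠ 0 := continuous_snd.continuousAt.eventually_ne hu
    filter_upwards [c.eventually (h.all (rX u hu).1).2.2, o1, o2] with q hq h1 h2
    simp only [(rX _ h1).2, (rX _ h2).2, ← eτ _ h1, ← eτ _ h2, ← eG _ h1, ← eG _ h2] at hq
    obtain ⟨k1, k2, -, k4⟩ := hq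
    refine ⟨k1, ?_⟩
    have k5 := (h.all (rX _ h1).1).2.1
    rw [(rX _ h1).2] at k5
    have e : ‖q.1‖ • G q.1 - ‖q.2‖ • G q.2 =
        ‖q.1‖ • (G q.1 - G q.2) + (‖q.1‖ - ‖q.2‖) • G q.2 := by module
    have k6 : ‖q.1‖ ≤ 2 * K * ‖X u‖ := by nlinarith
    have k7 : ‖q.1‖ * ‖G q.1 - G q.2‖ ≤ 2 * K * (l * ‖q.1 - q.2‖) :=
      calc _ ≤ 2 * K * ‖X u‖ * ‖G q.1 - G q.2‖ := by gcongr
        _ = 2 * K * (‖X u‖ * ‖G q.1 - G q.2‖) := by ring
        _ ≤ _ := by gcongr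
    have k8 : ‖‖q.1‖ - ‖q.2‖‖ * ‖G q.2‖ ≤ ‖q.1 - q.2‖ * D :=
      mul_le_mul (abs_norm_sub_norm_le _ _) (bG _) (norm_nonneg _) (norm_nonneg _)
    rw [e]
    refine (norm_add_le _ _).trans ?_
    rw [norm_smul, norm_smul, norm_norm]
    linarith
  refine ⟨τ, X, G, cX, hX, rX, lX, eτ, eG, mτ, mG, ?_, ?_, bG, ?_⟩
  · refine LipschitzWith.of_dist_le_mul fun x y => ?_
    rw [dist_eq_norm, dist_eq_norm]
    exact glob (fun r x _ => mτ r x) (fun u hu => (loc u hu).mono fun _ k => k.1) y x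
  · refine measurable_of_continuousOn_compl_singleton 0 ?_
    exact (h.cF.comp cX.continuousOn fun u hu => (rX u hu).1).congr fun u hu => eG u hu
  · refine LipschitzWith.of_dist_le' fun x y => ?_
    rw [dist_eq_norm, dist_eq_norm]
    refine glob (f := fun x => ‖x‖ • G x) (fun r x hr => ?_)
      (fun u hu => (loc u hu).mono fun _ k => k.2) y x
    by_cases h0 : r = 0
    · simp [h0]
    rw [mG r x h0, norm_smul, Real.norm_of_nonneg hr, mul_smul]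

end Pool.Agent.MP_3ee8cb_gt.CYP
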