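import Pool.Agent.MP_3ee8cb_gt.CYP.Chart

/-! From pairs of unit vectors to all pairs. -/

namespace Pool.Agent.MP_3ee8cb_gt.CYP

open DN Set Filter Topology
open scoped NNReal RealInnerProductSpace

variable [Dim]

/-- The Lorentz square of a difference of two points of the cone. -/
theorem lor {x y : V} {p q : ℝ} (r u : ℝ) (hx : ‖x‖ ^ 2 - p ^ 2 = 1) (hy : ‖y‖ ^ 2 - q ^ 2 = 1) :
    ‖r • x - u • y‖ ^ 2 - (r * p - u * q) ^ 2 =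
      (r - u) ^ 2 + r * u * (‖x - y‖ ^ 2 - (p - q) ^ 2) := by
  rw [norm_sub_sq_real, norm_sub_sq_real, norm_smul, norm_smul, inner_smul_left, inner_smul_right,
    mul_pow, mul_pow, Real.norm_eq_abs, Real.norm_eq_abs, sq_abs, sq_abs]
  simp only [conj_trivial]
  linear_combination (r ^ 2 - r * u) * hx + (u ^ 2 - r * u) * hy

theorem loc_of_unit {K D θ μ : ℝ} {s l : ℝ≥0} {t : V → ℝ} {ξ F : V → V}
    (cx : ContinuousOn ξ {a | a ≠ 0}) (cF : ContinuousOn F {a | a ≠ 0})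
    (ht : ∀ (r : ℝ) a, r ≠ 0 → a ≠ 0 → t (r • a) = r * t a)
    (hx : ∀ (r : ℝ) a, r ≠ 0 → a ≠ 0 → ξ (r • a) = r • ξ a)
    (hF : ∀ (r : ℝ) a, r ≠ 0 → a ≠ 0 → F (r • a) = F a)
    (bd : ∀ a, ‖a‖ = 1 → ‖F a‖ ≤ D ∧ ‖ξ a‖ ≤ K)
    (nm : ∀ a, ‖a‖ = 1 → ‖ξ a‖ ^ 2 - t a ^ 2 = 1)
    (two : ∀ a, ‖a‖ = 1 → ∀ᶠ p : V × V in 𝓝 (a, a), ‖p.1‖ = 1 → ‖p.2‖ = 1 →
      θ * ‖ξ p.1 - ξ p.2‖ ^ 2 ≤ ‖ξ p.1 - ξ p.2‖ ^ 2 - (t p.1 - t p.2) ^ 2 ∧
      ‖F p.1 - F p.2‖ ^ 2 ≤ μ * (‖ξ p.1 - ξ p.2‖ ^ 2 - (t p.1 - t p.2) ^ 2) ∧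
      (ξ p.1 = ξ p.2 → p.1 = p.2))
    (θ0 : 0 ≤ θ) (μ0 : 0 ≤ μ) (s1 : 1 - (s : ℝ) ^ 2 ≤ 1 / (2 * K ^ 2))
    (s2 : 1 - (s : ℝ) ^ 2 ≤ 2 * θ / 5) (hl : 2 * μ ≤ (l : ℝ) ^ 2) : Loc K D s l t ξ F := by
  refine ⟨cx, cF, ht, hx, hF, bd, fun a ha => ?_⟩
  have a0 : a ≠ 0 := fun e => by simp [e] at ha
  have K1 : 1 ≤ K ^ 2 := by
    have h1 := nm a ha
    have h2 := pow_le_pow_left₀ (norm_nonneg _) (bd a ha).2 2
    nlinarith [sq_nonneg (t a)]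
  have cu : ContinuousAt (fun x : V => ‖x‖⁻¹ • x) a :=
    (continuous_norm.continuousAt.inv₀ (by simp [ha])).smul continuousAt_id
  have c : Tendsto (fun p : V × V => (‖p.1‖⁻¹ • p.1, ‖p.2‖⁻¹ • p.2)) (𝓝 (a, a)) (𝓝 (a, a)) := by
    have h1 : Tendsto (fun x : V => ‖x‖⁻¹ • x) (𝓝 a) (𝓝 a) := by simpa [ha] using cu.tendsto
    exact (h1.comp (continuous_fst.tendsto' _ _ rfl)).prodMk_nhds
      (h1.comp (continuous_snd.tendsto' _ _ rfl))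
  have o : ∀ f : V × V → V, Continuous f → f (a, a) = a →
      ∀ᶠ p : V × V in 𝓝 (a, a), 9 / 10 < ‖f p‖ ∧ ‖f p‖ < 11 / 10 := fun f hf e =>
    (continuousAt_const.eventually_lt hf.norm.continuousAt (by rw [e, ha]; norm_num)).and
      (hf.norm.continuousAt.eventually_lt continuousAt_const (by rw [e, ha]; norm_num))
  filter_upwards [c.eventually (two a ha), o _ continuous_fst rfl, o _ continuous_snd rfl]
    with p hp h1 h2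
  have n1 : p.1 ≠ 0 := norm_pos_iff.1 (by linarith [h1.1])
  have n2 : p.2 ≠ 0 := norm_pos_iff.1 (by linarith [h2.1])
  have u1 : ‖‖p.1‖⁻¹ • p.1‖ = 1 := norm_smul_inv_norm n1
  have u2 : ‖‖p.2‖⁻¹ • p.2‖ = 1 := norm_smul_inv_norm n2
  obtain ⟨k1, k2, k3⟩ := hp u1 u2
  generalize hv : ‖p.1‖⁻¹ • p.1 = v at *
  generalize hw : ‖p.2‖⁻¹ • p.2 = w at *
  have e1 : p.1 = ‖p.1‖ • v := by rw [← hv, smul_inv_smul₀ (norm_ne_zero_iff.2 n1)]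
  have e2 : p.2 = ‖p.2‖ • w := by rw [← hw, smul_inv_smul₀ (norm_ne_zero_iff.2 n2)]
  have v0 : v ≠ 0 := fun e => by simp [e] at u1
  have w0 : w ≠ 0 := fun e => by simp [e] at u2
  generalize ‖p.1‖ = r at *
  generalize ‖p.2‖ = u at *
  have r0 : r ≠ 0 := by linarith [h1.1] |> ne_of_gt (a := r) (b := 0)
  have u0 : u ≠ 0 := by linarith [h2.1] |> ne_of_gt (a := u) (b := 0)
  rw [e1, e2, ht _ _ r0 v0, ht _ _ u0 w0, hx _ _ r0 v0, hx _ _ u0 w0, hF _ _ r0 v0, hF _ _ u0 w0]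
  have q := lor r u (nm v u1) (nm w u2)
  have Q0 : 0 ≤ ‖ξ v - ξ w‖ ^ 2 - (t v - t w) ^ 2 := le_trans (by positivity) k1
  have ru : 1 / 2 ≤ r * u := by nlinarith [h1.1, h2.1]
  have b : ‖r • ξ v - u • ξ w‖ ^ 2 ≤ 2 * K ^ 2 * (r - u) ^ 2 + 2 * u ^ 2 * ‖ξ v - ξ w‖ ^ 2 := by
    have e : r • ξ v - u • ξ w = (r - u) • ξ v + u • (ξ v - ξ w) := by module
    have i := norm_add_le ((r - u) • ξ v) (u • (ξ v - ξ w))
    rw [← e, norm_smul, norm_smul, Real.norm_eq_abs, Real.norm_eq_abs] at i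
    have j : |r - u| * ‖ξ v‖ ≤ |r - u| * K := by gcongr; exact (bd v u1).2
    have := pow_le_pow_left₀ (norm_nonneg _) (i.trans (add_le_add_left j _)) 2
    nlinarith [sq_nonneg (|r - u| * K - |u| * ‖ξ v - ξ w‖), sq_abs (r - u), sq_abs u]
  generalize hN : ‖r • ξ v - u • ξ w‖ = N at *
  have N0 : 0 ≤ N := hN ▸ norm_nonneg _
  refine ⟨abs_le_of_sq_le_sq' ?_ (by positivity) |> abs_le.2, ?_, fun e => ?_⟩
  · rw [mul_pow]
    rcases le_total (1 - (s : ℝ) ^ 2) 0 with h | h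
    · nlinarith [sq_nonneg (r - u), sq_nonneg N]
    have b1 : (1 - (s : ℝ) ^ 2) * (2 * K ^ 2) ≤ 1 := (le_div_iff₀ (by linarith)).1 s1
    have b2 : (1 - (s : ℝ) ^ 2) * (2 * u ^ 2) ≤ r * u * θ :=
      calc _ ≤ 2 * θ / 5 * (2 * u ^ 2) := by gcongr
        _ = θ * u * (4 / 5 * u) := by ring
        _ ≤ θ * u * r := by
          have : 0 ≤ θ * u := mul_nonneg θ0 (by linarith [h2.1])
          gcongr
          linarith [h1.1, h2.2]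
        _ = _ := by ring
    have b3 := mul_le_mul_of_nonneg_left b h
    have b4 := mul_le_mul_of_nonneg_right b1 (sq_nonneg (r - u))
    have b5 := mul_le_mul_of_nonneg_right b2 (sq_nonneg ‖ξ v - ξ w‖)
    have b6 := mul_le_mul_of_nonneg_left k1 (show 0 ≤ r * u by linarith)
    nlinarith
  · refine le_of_sq_le_sq ?_ (by positivity)
    rw [mul_pow]
    have b1 : 1 / 2 * (‖ξ v - ξ w‖ ^ 2 - (t v - t w) ^ 2) ≤ N ^ 2 := by
      nlinarith [sq_nonneg (r - u), sq_nonneg (r * t v - u * t w),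
        mul_le_mul_of_nonneg_right ru Q0]
    nlinarith [mul_le_mul_of_nonneg_left b1 μ0, mul_le_mul_of_nonneg_right hl (sq_nonneg N)]
  · have N1 : N = 0 := by rw [← hN, e, sub_self, norm_zero]
    have b1 : (r - u) ^ 2 ≤ 0 := by
      nlinarith [sq_nonneg (r * t v - u * t w), mul_le_mul_of_nonneg_right ru Q0]
    have e3 : r = u := sub_eq_zero.1 (pow_eq_zero_iff two_ne_zero |>.1 (b1.antisymm (sq_nonneg _)))
    subst e3
    rw [k3 (smul_right_injective V r0 e)]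

end Pool.Agent.MP_3ee8cb_gt.CYP
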